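import Pool.Agent.Helper70.SK.Stmts
import Pool.Agent.Helper70.SK.Lib
import Pool.Agent.Helper50.DK.VOL

set_option autoImplicit false

/-! MK: from the entropy statement to the Minkowski dimension. -/

namespace Pool.Agent.Helper70.SK

open Finset MeasureTheory Pool.Agent.Helper70.DK

/-- the system of a sticky map -/
noncomputable def mkS (m b L : ℕ) (a : (Fin m → ℝ) → Fin m → ℝ) : Sy m m where
  n := L
  a1 := L
  a3 := L
  G := Finset.range (b ^ L)
  t := fun γ => (γ : ℤ)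
  N := fun _ r c => if r = c then (b : ℤ) ^ L else 0
  A := fun x c => ⌊(b : ℝ) ^ L * a (fun c' => (x c' : ℝ) / (b : ℝ) ^ L) c⌋

theorem mk_sticky {m b L k : ℕ} {R : ℝ} {a : (Fin m → ℝ) → Fin m → ℝ} (hb : 2 ≤ b)
    (hst : Sticky a b R) (hk : k ≤ L) (x : Fin m → ℤ)
    (hx : ∀ c, 0 ≤ x c ∧ x c < (b : ℤ) ^ L) (c : Fin m) :
    (b : ℝ) ^ k * |a (fun c' => (x c' : ℝ) / (b : ℝ) ^ L) c -
      a (fun c' => ((x c' / (b : ℤ) ^ (L - k) : ℤ) : ℝ) / (b : ℝ) ^ k) c| ≤ R := by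
  have hb0 : (0 : ℝ) < b := by
    have : 0 < b := by omega
    exact_mod_cast this
  have hbz : (0 : ℤ) < b := by
    have : 0 < b := by omega
    exact_mod_cast this
  have hs : (0 : ℤ) < (b : ℤ) ^ (L - k) := by positivity
  have hsr : (0 : ℝ) < (b : ℝ) ^ (L - k) := by positivity
  have hpow : (b : ℤ) ^ k * (b : ℤ) ^ (L - k) = (b : ℤ) ^ L := by
    rw [← pow_add]; congr 1; omega
  have hpowr : (b : ℝ) ^ k * (b : ℝ) ^ (L - k) = (b : ℝ) ^ L := by
    rw [← pow_add]; congr 1; omega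
  have hi : (fun c' => x c' / (b : ℤ) ^ (L - k)) ∈ grid m (b ^ k) := by
    intro c'
    refine ⟨Int.ediv_nonneg (hx c').1 hs.le, ?_⟩
    rw [Int.ediv_lt_iff_lt_mul hs]
    push_cast
    rw [hpow]
    exact (hx c').2
  have hy : (fun c' => (x c' : ℝ) / (b : ℝ) ^ (L - k) - ((x c' / (b : ℤ) ^ (L - k) : ℤ) : ℝ)) ∈
      cube m := by
    intro c'
    have h1 : x c' / (b : ℤ) ^ (L - k) * (b : ℤ) ^ (L - k) ≤ x c' := Int.ediv_mul_le _ hs.ne'
    have h2 : x c' < (x c' / (b : ℤ) ^ (L - k) + 1) * (b : ℤ) ^ (L - k) :=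
      Int.lt_ediv_add_one_mul_self _ hs
    have h1' : ((x c' / (b : ℤ) ^ (L - k) : ℤ) : ℝ) * (b : ℝ) ^ (L - k) ≤ x c' := by
      exact_mod_cast h1
    have h2' : (x c' : ℝ) < (((x c' / (b : ℤ) ^ (L - k) : ℤ) : ℝ) + 1) * (b : ℝ) ^ (L - k) := by
      exact_mod_cast h2
    constructor
    · rw [sub_nonneg, le_div_iff₀ hsr]; exact h1'
    · rw [sub_lt_iff_lt_add', div_lt_iff₀ hsr]
      linarith
  have h := hst k _ hi _ hy c
  unfold pat at h
  rw [if_pos hy, abs_mul, abs_of_pos (by positivity : (0 : ℝ) < (b : ℝ) ^ k)] at h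
  have e : (fun c' => ((x c' : ℝ) / (b : ℝ) ^ (L - k) - ((x c' / (b : ℤ) ^ (L - k) : ℤ) : ℝ) +
      ((x c' / (b : ℤ) ^ (L - k) : ℤ) : ℝ)) / (b : ℝ) ^ k) =
      fun c' => (x c' : ℝ) / (b : ℝ) ^ L := by
    funext c'
    rw [sub_add_cancel, div_div, mul_comm, hpowr]
  rw [e] at h
  exact h

theorem mk_mem {m b L : ℕ} (x : Fin m → ℤ) :
    x ∈ gr m (b ^ L) ↔ ∀ c, 0 ≤ x c ∧ x c < (b : ℤ) ^ L := by
  unfold gr
  rw [Fintype.mem_piFinset]
  push_cast
  constructor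
  · intro h c
    have := h c
    rw [Finset.mem_Ico] at this
    exact this
  · intro h c
    rw [Finset.mem_Ico]
    exact h c

theorem mk_ok {m b L : ℕ} {R : ℝ} {a : (Fin m → ℝ) → Fin m → ℝ} (hb : 2 ≤ b)
    (hst : Sticky a b R) : (mkS m b L a).Ok b (2 * R + 1) 1 1 4 := by
  have hb0 : (0 : ℝ) < b := by
    have : 0 < b := by omega
    exact_mod_cast this
  have hb1 : (1 : ℝ) ≤ b := by
    have : 1 ≤ b := by omega
    exact_mod_cast this
  have hbz : (0 : ℤ) < b := by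
    have : 0 < b := by omega
    exact_mod_cast this
  refine ⟨?_, le_rfl, le_rfl, ?_, ?_, ?_, ?_, ?_⟩
  · exact Finset.nonempty_range_iff.2 (pow_ne_zero _ (by omega))
  · intro γ hγ
    have h1 : γ < b ^ L := Finset.mem_range.1 hγ
    refine ⟨Int.natCast_nonneg _, ?_⟩
    show (γ : ℤ) ≤ (b : ℤ) ^ L
    exact_mod_cast h1.le
  · intro γ _ r c
    show |(((if r = c then (b : ℤ) ^ L else 0 : ℤ)) : ℝ)| ≤ 1 * (b : ℝ) ^ L
    split_ifs
    · push_cast
      rw [abs_of_pos (by positivity), one_mul]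
    · simp
  · intro γ _ v
    show 1 * (b : ℝ) ^ (2 * L) * ∑ r, v r ^ 2 ≤
      ∑ c, (∑ r, v r * (((if r = c then (b : ℤ) ^ L else 0 : ℤ)) : ℝ)) ^ 2
    have h1 : ∀ c : Fin m, ∑ r, v r * (((if r = c then (b : ℤ) ^ L else 0 : ℤ)) : ℝ) =
        v c * (b : ℝ) ^ L := by
      intro c
      rw [Finset.sum_eq_single c]
      · rw [if_pos rfl]; push_cast; ring
      · intro r _ hr
        rw [if_neg hr]; simp
      · intro h; exact absurd (Finset.mem_univ c) h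
    simp_rw [h1]
    rw [Finset.mul_sum]
    apply le_of_eq
    apply Finset.sum_congr rfl
    intro c _
    ring
  · intro t0 j hj
    have hj' : j ≤ L := hj
    show (((Finset.range (b ^ L)).filter
      (fun γ : ℕ => |(γ : ℤ) - t0| ≤ (b : ℤ) ^ (L - j))).card : ℝ) * (b : ℝ) ^ j ≤
      4 * ((Finset.range (b ^ L)).card : ℝ)
    rw [Finset.card_range]
    have h1 : ((Finset.range (b ^ L)).filter
        (fun γ : ℕ => |(γ : ℤ) - t0| ≤ (b : ℤ) ^ (L - j))).card ≤ 2 * b ^ (L - j) + 1 := by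
      have h2 : ((Finset.range (b ^ L)).filter
          (fun γ : ℕ => |(γ : ℤ) - t0| ≤ (b : ℤ) ^ (L - j))).card ≤
          (Finset.Icc (t0 - (b : ℤ) ^ (L - j)) (t0 + (b : ℤ) ^ (L - j))).card := by
        apply Finset.card_le_card_of_injOn (fun γ : ℕ => (γ : ℤ))
        · intro γ hγ
          have h3 := (Finset.mem_filter.1 (Finset.mem_coe.1 hγ)).2
          rw [abs_le] at h3
          rw [Finset.mem_coe, Finset.mem_Icc]
          constructor <;> linarith [h3.1, h3.2]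
        · intro γ _ γ' _ h
          exact Int.natCast_inj.1 h
      refine h2.trans (le_of_eq ?_)
      rw [Int.card_Icc]
      have h4 : t0 + (b : ℤ) ^ (L - j) + 1 - (t0 - (b : ℤ) ^ (L - j)) =
        ((2 * b ^ (L - j) + 1 : ℕ) : ℤ) := by push_cast; ring
      rw [h4, Int.toNat_natCast]
    have h1r : (((Finset.range (b ^ L)).filter
        (fun γ : ℕ => |(γ : ℤ) - t0| ≤ (b : ℤ) ^ (L - j))).card : ℝ) ≤
        2 * (b : ℝ) ^ (L - j) + 1 := by exact_mod_cast h1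
    have hpowr : (b : ℝ) ^ (L - j) * (b : ℝ) ^ j = (b : ℝ) ^ L := by
      rw [← pow_add]; congr 1; omega
    have hle : (b : ℝ) ^ j ≤ (b : ℝ) ^ L := pow_le_pow_right₀ hb1 hj'
    have h5 := mul_le_mul_of_nonneg_right h1r (by positivity : (0 : ℝ) ≤ (b : ℝ) ^ j)
    push_cast
    have hL0 : (0 : ℝ) < (b : ℝ) ^ L := by positivity
    nlinarith
  · intro k hk x hx x' hx' htr c
    have hk' : k ≤ L := hk
    have hxx := (mk_mem x).1 hx
    have hxx' := (mk_mem x').1 hx'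
    have hA := mk_sticky hb hst hk' x hxx c
    have hA' := mk_sticky hb hst hk' x' hxx' c
    have hcell : (fun c' => ((x c' / (b : ℤ) ^ (L - k) : ℤ) : ℝ) / (b : ℝ) ^ k) =
        fun c' => ((x' c' / (b : ℤ) ^ (L - k) : ℤ) : ℝ) / (b : ℝ) ^ k := by
      funext c'
      have h1 := congrFun htr c'
      have h2 : x c' / (b : ℤ) ^ (L - k) = x' c' / (b : ℤ) ^ (L - k) := h1
      rw [h2]
    rw [← hcell] at hA'
    set u := a (fun c' => (x c' : ℝ) / (b : ℝ) ^ L) c with hu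
    set u' := a (fun c' => (x' c' : ℝ) / (b : ℝ) ^ L) c with hu'
    set w := a (fun c' => ((x c' / (b : ℤ) ^ (L - k) : ℤ) : ℝ) / (b : ℝ) ^ k) c with hw
    show |((⌊(b : ℝ) ^ L * u⌋ : ℤ) : ℝ) - ((⌊(b : ℝ) ^ L * u'⌋ : ℤ) : ℝ)| ≤
      (2 * R + 1) * (b : ℝ) ^ (L - k)
    have hk0 : (0 : ℝ) < (b : ℝ) ^ k := by positivity
    have hLk : (1 : ℝ) ≤ (b : ℝ) ^ (L - k) := one_le_pow₀ hb1
    have hpowr : (b : ℝ) ^ (L - k) * (b : ℝ) ^ k = (b : ℝ) ^ L := by
      rw [← pow_add]; congr 1; omega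
    have h3 : (b : ℝ) ^ k * |u - u'| ≤ 2 * R := by
      have h4 : |u - u'| ≤ |u - w| + |u' - w| := by
        have := abs_sub_le u w u'
        rw [abs_sub_comm w u'] at this
        exact this
      calc (b : ℝ) ^ k * |u - u'| ≤ (b : ℝ) ^ k * (|u - w| + |u' - w|) :=
            mul_le_mul_of_nonneg_left h4 hk0.le
        _ = (b : ℝ) ^ k * |u - w| + (b : ℝ) ^ k * |u' - w| := by ring
        _ ≤ 2 * R := by linarith
    have h5 : |(b : ℝ) ^ L * u - (b : ℝ) ^ L * u'| ≤ 2 * R * (b : ℝ) ^ (L - k) := by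
      rw [← mul_sub, abs_mul, abs_of_pos (by positivity : (0 : ℝ) < (b : ℝ) ^ L), ← hpowr,
        mul_assoc, mul_comm ((b : ℝ) ^ (L - k))]
      exact mul_le_mul_of_nonneg_right h3 (by linarith)
    have f1 := Int.floor_le ((b : ℝ) ^ L * u)
    have f2 := Int.lt_floor_add_one ((b : ℝ) ^ L * u)
    have f3 := Int.floor_le ((b : ℝ) ^ L * u')
    have f4 := Int.lt_floor_add_one ((b : ℝ) ^ L * u')
    rw [abs_le] at h5 ⊢
    constructor <;> nlinarith [h5.1, h5.2]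

/-- the cells of the system -/
noncomputable def mkW (m b L : ℕ) (a : (Fin m → ℝ) → Fin m → ℝ) (γ : ℕ) (x : Fin m → ℤ) :
    Fin m → ℤ :=
  fun r => ⌊(b : ℝ) ^ L * a (fun c' => (x c' : ℝ) / (b : ℝ) ^ L) r⌋ + γ * x r / (b : ℤ) ^ L

theorem mk_cl {m b L : ℕ} (a : (Fin m → ℝ) → Fin m → ℝ) (hb : 2 ≤ b) (γ : ℕ) (x : Fin m → ℤ) :
    cl b ((mkS m b L a).e L) ((mkS m b L a).Y b γ x) = mkW m b L a γ x := by
  have hbz : (0 : ℤ) < b := by
    have : 0 < b := by omega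
    exact_mod_cast this
  funext r
  have he : (mkS m b L a).e L = L + L := by
    show L + L + L - L = L + L
    omega
  have hY : (mkS m b L a).Y b γ x r = (b : ℤ) ^ L * ((b : ℤ) ^ L *
      ⌊(b : ℝ) ^ L * a (fun c' => (x c' : ℝ) / (b : ℝ) ^ L) r⌋ + γ * x r) := by
    show ∑ c, (if r = c then (b : ℤ) ^ L else 0) * ((b : ℤ) ^ L *
      ⌊(b : ℝ) ^ L * a (fun c' => (x c' : ℝ) / (b : ℝ) ^ L) c⌋ + (γ : ℤ) * x c) = _
    rw [Finset.sum_eq_single r]
    · rw [if_pos rfl]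
    · intro c _ hc
      rw [if_neg (Ne.symm hc), zero_mul]
    · intro h; exact absurd (Finset.mem_univ r) h
  show (mkS m b L a).Y b γ x r / (b : ℤ) ^ (mkS m b L a).e L = mkW m b L a γ x r
  rw [he, hY, pow_add, Int.mul_ediv_mul_of_pos _ _ (by positivity)]
  unfold mkW
  rw [add_comm, Int.add_mul_ediv_left _ _ (by positivity), add_comm]

/-- upper bound of the entropy -/
theorem mk_up {m b L : ℕ} {R : ℝ} {a : (Fin m → ℝ) → Fin m → ℝ} (hb : 2 ≤ b) (hR : 0 ≤ R)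
    (hst : Sticky a b R) (γ : ℕ) (hγ : γ < b ^ L) :
    (mkS m b L a).h b γ L ≤ m * L * Real.log b + m * Real.log (4 * R + 6) := by
  have hb0 : (0 : ℝ) < b := by
    have : 0 < b := by omega
    exact_mod_cast this
  have hb1 : (1 : ℝ) ≤ b := by
    have : 1 ≤ b := by omega
    exact_mod_cast this
  have hbz : (0 : ℤ) < b := by
    have : 0 < b := by omega
    exact_mod_cast this
  have hok := mk_ok (L := L) hb hst
  have h0 : (0 : Fin m → ℤ) ∈ gr m (b ^ L) := by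
    rw [mk_mem]; intro c; exact ⟨le_rfl, by positivity⟩
  unfold Sy.h
  -- the radius
  obtain ⟨K, hK1, hK2⟩ : ∃ K : ℕ, (2 * R + 1) * (b : ℝ) ^ L ≤ K ∧
      (K : ℝ) ≤ (2 * R + 1) * (b : ℝ) ^ L + 1 := by
    refine ⟨⌈(2 * R + 1) * (b : ℝ) ^ L⌉₊, Nat.le_ceil _, (Nat.ceil_lt_add_one (by positivity)).le⟩
  set F : Finset (Fin m → ℤ) := Fintype.piFinset (fun r : Fin m =>
    Finset.Ico (mkW m b L a γ 0 r - (K : ℤ)) (mkW m b L a γ 0 r + K + b ^ L)) with hF
  have hent := ent_card ((mkS m b L a).X b)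
    (fun x => cl b ((mkS m b L a).e L) ((mkS m b L a).Y b γ x)) F ?_
  · refine hent.trans ?_
    have hcard : (F.card : ℝ) = (2 * K + (b : ℝ) ^ L) ^ m := by
      rw [hF, Fintype.card_piFinset]
      have h1 : ∀ r : Fin m, (Finset.Ico (mkW m b L a γ 0 r - (K : ℤ))
          (mkW m b L a γ 0 r + K + b ^ L)).card = 2 * K + b ^ L := by
        intro r
        rw [Int.card_Ico]
        have : mkW m b L a γ 0 r + K + (b : ℤ) ^ L - (mkW m b L a γ 0 r - K) =
          ((2 * K + b ^ L : ℕ) : ℤ) := by push_cast; ring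
        rw [this, Int.toNat_natCast]
      rw [Finset.prod_congr rfl (fun r _ => h1 r), Finset.prod_const, Finset.card_univ,
        Fintype.card_fin]
      push_cast
      ring
    rw [hcard]
    have hL1 : (1 : ℝ) ≤ (b : ℝ) ^ L := one_le_pow₀ hb1
    have h2 : (2 * K + (b : ℝ) ^ L) ≤ (4 * R + 6) * (b : ℝ) ^ L := by nlinarith
    have h3 : (0 : ℝ) < 2 * K + (b : ℝ) ^ L := by positivity
    rw [Real.log_pow]
    have h4 := Real.log_le_log h3 h2
    rw [Real.log_mul (by positivity) (by positivity), Real.log_pow] at h4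
    have h5 := mul_le_mul_of_nonneg_left h4 (Nat.cast_nonneg m : (0 : ℝ) ≤ m)
    refine h5.trans (le_of_eq ?_)
    ring
  · intro x hx
    have hx' : x ∈ gr m (b ^ L) := hx
    rw [mk_cl a hb γ x, hF, Fintype.mem_piFinset]
    intro r
    have htr : (mkS m b L a).tr b 0 x = (mkS m b L a).tr b 0 0 := by
      funext c
      show x c / (b : ℤ) ^ (L - 0) = 0 / (b : ℤ) ^ (L - 0)
      have := (mk_mem x).1 hx' c
      rw [Nat.sub_zero, Int.ediv_eq_zero_of_lt this.1 this.2, Int.zero_ediv]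
    have hs := hok.st 0 (Nat.zero_le _) x hx' 0 h0 htr r
    have hs' : |((⌊(b : ℝ) ^ L * a (fun c' => (x c' : ℝ) / (b : ℝ) ^ L) r⌋ : ℤ) : ℝ) -
        ((⌊(b : ℝ) ^ L * a (fun c' => (((0 : Fin m → ℤ) c' : ℤ) : ℝ) / (b : ℝ) ^ L) r⌋ : ℤ) : ℝ)|
        ≤ (2 * R + 1) * (b : ℝ) ^ (L - 0) := hs
    rw [Nat.sub_zero] at hs'
    have hs2 := hs'.trans hK1
    have hs3 : |⌊(b : ℝ) ^ L * a (fun c' => (x c' : ℝ) / (b : ℝ) ^ L) r⌋ -
        ⌊(b : ℝ) ^ L * a (fun c' => (((0 : Fin m → ℤ) c' : ℤ) : ℝ) / (b : ℝ) ^ L) r⌋| ≤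
        (K : ℤ) := by exact_mod_cast hs2
    rw [abs_le] at hs3
    have hxr := (mk_mem x).1 hx' r
    have hd0 : 0 ≤ (γ : ℤ) * x r / (b : ℤ) ^ L :=
      Int.ediv_nonneg (mul_nonneg (Int.natCast_nonneg _) hxr.1) (by positivity)
    have hd1 : (γ : ℤ) * x r / (b : ℤ) ^ L < (b : ℤ) ^ L := by
      rw [Int.ediv_lt_iff_lt_mul (by positivity)]
      have hγ' : (γ : ℤ) < (b : ℤ) ^ L := by exact_mod_cast hγ
      exact mul_lt_mul'' hγ' hxr.2 (Int.natCast_nonneg _) hxr.1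
    rw [Finset.mem_Ico]
    unfold mkW
    have hz : (γ : ℤ) * (0 : Fin m → ℤ) r / (b : ℤ) ^ L = 0 := by
      simp
    rw [hz]
    constructor <;> linarith [hs3.1, hs3.2]

/-- real cells and the cells of the system -/
theorem mk_fl {m b L : ℕ} (a : (Fin m → ℝ) → Fin m → ℝ) (hb : 2 ≤ b) (γ : ℕ) (x : Fin m → ℤ)
    (hx : x ∈ gr m (b ^ L)) (t : ℝ) (h1 : (γ : ℝ) ≤ t * (b : ℝ) ^ L)
    (h2 : t * (b : ℝ) ^ L < γ + 1) (r : Fin m) :
    mkW m b L a γ x r ≤ ⌊(b : ℝ) ^ L * a (fun c' => (x c' : ℝ) / (b : ℝ) ^ L) r + t * x r⌋ ∧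
    ⌊(b : ℝ) ^ L * a (fun c' => (x c' : ℝ) / (b : ℝ) ^ L) r + t * x r⌋ < mkW m b L a γ x r + 3 := by
  have hb0 : (0 : ℝ) < b := by
    have : 0 < b := by omega
    exact_mod_cast this
  have hbz : (0 : ℤ) < b := by
    have : 0 < b := by omega
    exact_mod_cast this
  have hL0 : (0 : ℝ) < (b : ℝ) ^ L := by positivity
  have hLz : (0 : ℤ) < (b : ℤ) ^ L := by positivity
  have hxr := (mk_mem x).1 hx r
  have hx0 : (0 : ℝ) ≤ x r := by exact_mod_cast hxr.1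
  have hx1 : (x r : ℝ) ≤ (b : ℝ) ^ L := by exact_mod_cast hxr.2.le
  set d : ℤ := (γ : ℤ) * x r / (b : ℤ) ^ L with hd
  have d1 : d * (b : ℤ) ^ L ≤ γ * x r := Int.ediv_mul_le _ hLz.ne'
  have d2 : (γ : ℤ) * x r < (d + 1) * (b : ℤ) ^ L := Int.lt_ediv_add_one_mul_self _ hLz
  have d1' : (d : ℝ) * (b : ℝ) ^ L ≤ γ * x r := by exact_mod_cast d1
  have d2' : (γ : ℝ) * x r < (d + 1) * (b : ℝ) ^ L := by exact_mod_cast d2
  -- t x between d and d + 2
  have t1 : (d : ℝ) ≤ t * x r := by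
    have : (d : ℝ) * (b : ℝ) ^ L ≤ (t * x r) * (b : ℝ) ^ L := by
      have := mul_le_mul_of_nonneg_right h1 hx0
      nlinarith
    exact le_of_mul_le_mul_right this hL0
  have t2 : t * x r < (d : ℝ) + 2 := by
    have : (t * x r) * (b : ℝ) ^ L < (d + 2) * (b : ℝ) ^ L := by
      have := mul_le_mul_of_nonneg_right h2.le hx0
      nlinarith
    exact lt_of_mul_lt_mul_right this hL0.le
  have f1 := Int.floor_le ((b : ℝ) ^ L * a (fun c' => (x c' : ℝ) / (b : ℝ) ^ L) r)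
  have f2 := Int.lt_floor_add_one ((b : ℝ) ^ L * a (fun c' => (x c' : ℝ) / (b : ℝ) ^ L) r)
  constructor
  · rw [Int.le_floor]
    unfold mkW
    push_cast
    linarith
  · rw [Int.floor_lt]
    unfold mkW
    push_cast
    linarith

/-- number of cells -/
theorem mk_count {m : ℕ} {Ω : Type} (S : Finset Ω) (W V : Ω → Fin m → ℤ)
    (h : ∀ x ∈ S, ∀ r, W x r ≤ V x r ∧ V x r < W x r + 3) :
    (S.image W).card ≤ 3 ^ m * (S.image V).card := by
  classical
  have hsub : S.image W ⊆ (S.image V ×ˢ Fintype.piFinset (fun _ : Fin m => Finset.range 3)).image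
      (fun p => fun r => p.1 r - (p.2 r : ℤ)) := by
    intro w hw
    obtain ⟨x, hx, rfl⟩ := Finset.mem_image.1 hw
    refine Finset.mem_image.2 ⟨(V x, fun r => (V x r - W x r).toNat), ?_, ?_⟩
    · rw [Finset.mem_product]
      refine ⟨Finset.mem_image_of_mem _ hx, ?_⟩
      rw [Fintype.mem_piFinset]
      intro r
      rw [Finset.mem_range]
      have := h x hx r
      show (V x r - W x r).toNat < 3
      omega
    · funext r
      have := h x hx r
      show V x r - (((V x r - W x r).toNat : ℕ) : ℤ) = W x r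
      omega
  refine (Finset.card_le_card hsub).trans (Finset.card_image_le.trans ?_)
  rw [Finset.card_product, Fintype.card_piFinset]
  simp only [Finset.card_range, Finset.prod_const, Finset.card_univ, Fintype.card_fin]
  rw [mul_comm]

/-- few bad heights -/
theorem mk_bad {m b : ℕ} {R ε : ℝ} (hEQ : EQ m m) (hb : 2 ≤ b) (hR : 0 ≤ R) (hε : 0 < ε) :
    ∃ L0 : ℕ, ∀ L, L0 ≤ L → ∀ a : (Fin m → ℝ) → Fin m → ℝ, Sticky a b R →
      4 * (((Finset.range (b ^ L)).filter (fun γ => (mkS m b L a).h b γ L <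
        ((m : ℝ) - ε) * L * Real.log b)).card : ℝ) ≤ (b : ℝ) ^ L := by
  obtain ⟨n0, hn0⟩ := hEQ b (2 * R + 1) 1 1 4 (ε / 8) hb (by linarith) one_pos zero_le_one
    (by norm_num) (by positivity)
  have hlb : 0 < Real.log b := Real.log_pos (by exact_mod_cast hb)
  set c1 : ℝ := m * Real.log (4 * R + 6) with hc1
  have hc10 : 0 ≤ c1 := mul_nonneg (Nat.cast_nonneg _) (Real.log_nonneg (by linarith))
  refine ⟨max (n0 + 1) (⌈c1 / (ε / 8 * Real.log b)⌉₊), ?_⟩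
  intro L hL a hst
  have hL1 : n0 + 1 ≤ L := (le_max_left _ _).trans hL
  have hL2 : c1 ≤ ε / 8 * Real.log b * L := by
    have h1 : c1 / (ε / 8 * Real.log b) ≤ L :=
      (Nat.le_ceil _).trans (by exact_mod_cast (le_max_right _ _).trans hL)
    rw [div_le_iff₀ (by positivity)] at h1
    linarith
  have hb0 : (0 : ℝ) < b := by
    have : 0 < b := by omega
    exact_mod_cast this
  have hLr : (0 : ℝ) < L := by exact_mod_cast (by omega : 0 < L)
  have hmain := hn0 (mkS m b L a) (mk_ok hb hst) L (by omega) le_rfl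
  have hG : ((mkS m b L a).G.card : ℝ) = (b : ℝ) ^ L := by
    show ((Finset.range (b ^ L)).card : ℝ) = _
    rw [Finset.card_range]; push_cast; ring
  rw [hG] at hmain
  set bad := (Finset.range (b ^ L)).filter (fun γ => (mkS m b L a).h b γ L <
        ((m : ℝ) - ε) * L * Real.log b) with hbad
  have hsum : ∑ γ ∈ (mkS m b L a).G, (mkS m b L a).h b γ L ≤
      ∑ γ ∈ Finset.range (b ^ L), ((m * L * Real.log b + c1) -
        (if (mkS m b L a).h b γ L < ((m : ℝ) - ε) * L * Real.log b then ε * L * Real.log b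
          else 0)) := by
    apply Finset.sum_le_sum
    intro γ hγ
    have hγ' : γ < b ^ L := Finset.mem_range.1 hγ
    split_ifs with hlt
    · have : ((m : ℝ) - ε) * L * Real.log b = m * L * Real.log b - ε * L * Real.log b := by ring
      linarith
    · have := mk_up (a := a) hb hR hst γ hγ'
      linarith
  rw [Finset.sum_sub_distrib, Finset.sum_const, Finset.card_range, ← Finset.sum_filter,
    Finset.sum_const, ← hbad, nsmul_eq_mul, nsmul_eq_mul] at hsum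
  push_cast at hsum
  have hbL : (0 : ℝ) < (b : ℝ) ^ L := by positivity
  have hLL : 0 < (L : ℝ) * Real.log b := by positivity
  have h1 : (bad.card : ℝ) * (ε * L * Real.log b) ≤ (b : ℝ) ^ L * (c1 + ε / 8 * L * Real.log b) := by
    have e1 : ((m : ℝ) - ε / 8) * L * Real.log b * (b : ℝ) ^ L =
      (b : ℝ) ^ L * (m * L * Real.log b) - (b : ℝ) ^ L * (ε / 8 * L * Real.log b) := by ring
    have e2 : (b : ℝ) ^ L * (m * L * Real.log b + c1) =
      (b : ℝ) ^ L * (m * L * Real.log b) + (b : ℝ) ^ L * c1 := by ring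
    have e3 : (b : ℝ) ^ L * (c1 + ε / 8 * L * Real.log b) = (b : ℝ) ^ L * c1 +
      (b : ℝ) ^ L * (ε / 8 * L * Real.log b) := by ring
    linarith [hmain.trans hsum]
  have h2 : (b : ℝ) ^ L * (c1 + ε / 8 * L * Real.log b) ≤
      (b : ℝ) ^ L / 4 * (ε * L * Real.log b) := by
    have : c1 + ε / 8 * L * Real.log b ≤ (ε * L * Real.log b) / 4 := by linarith
    have := mul_le_mul_of_nonneg_left this hbL.le
    linarith
  have h3 := le_of_mul_le_mul_right (h1.trans h2) (by positivity)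
  linarith

/-- one scale -/
theorem mk_scale (hVOL : ST_VOL) {m b : ℕ} {R ε : ℝ} (hEQ : EQ m m) (hb : 2 ≤ b) (hR : 0 ≤ R)
    (hε : 0 < ε) : ∃ (L0 : ℕ) (c : ℝ), 0 < c ∧ ∀ L, L0 ≤ L →
    ∀ (a : (Fin m → ℝ) → Fin m → ℝ) (E : Set (EuclideanSpace ℝ (Fin (m + 1)))), Sticky a b R →
      (∀ x ∈ cube m, ∀ t : ℝ, 0 ≤ t → t ≤ 1 → pt (fun c => a x c + t * x c) t ∈ E) →
      ENNReal.ofReal (c * ((b : ℝ)⁻¹ ^ L) ^ ε) ≤ volume (Metric.thickening ((b : ℝ)⁻¹ ^ L) E) := by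
  classical
  obtain ⟨L0, hL0⟩ := mk_bad (R := R) hEQ hb hR hε
  obtain ⟨c, hc, hvol⟩ := hVOL m
  refine ⟨L0, c / 3 ^ m, by positivity, ?_⟩
  intro L hL a E hst hE
  have hb0 : (0 : ℝ) < b := by
    have : 0 < b := by omega
    exact_mod_cast this
  have hbL : (0 : ℝ) < (b : ℝ) ^ L := by positivity
  have hbad := hL0 L hL a hst
  set bad := (Finset.range (b ^ L)).filter (fun γ => (mkS m b L a).h b γ L <
        ((m : ℝ) - ε) * L * Real.log b) with hbaddef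
  set T : Set ℝ := {t : ℝ | 0 ≤ t ∧ t < 1 ∧ ((m : ℝ) - ε) * L * Real.log b ≤
    (mkS m b L a).h b ⌊t * (b : ℝ) ^ L⌋₊ L} with hT
  have hTI : T ⊆ Set.Icc 0 1 := fun t ht => ⟨ht.1, ht.2.1.le⟩
  have hTv : ENNReal.ofReal (1 / 2) ≤ volume T := by
    have h1 : Set.Ico (0 : ℝ) 1 ⊆ T ∪ ⋃ γ ∈ bad, Set.Ico ((γ : ℝ) / (b : ℝ) ^ L)
        (((γ : ℝ) + 1) / (b : ℝ) ^ L) := by
      intro t ht
      by_cases h' : (mkS m b L a).h b ⌊t * (b : ℝ) ^ L⌋₊ L < ((m : ℝ) - ε) * L * Real.log b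
      · right
        have hpos : 0 ≤ t * (b : ℝ) ^ L := mul_nonneg ht.1 hbL.le
        have hlt : ⌊t * (b : ℝ) ^ L⌋₊ < b ^ L := by
          rw [Nat.floor_lt hpos]
          push_cast
          have := mul_lt_mul_of_pos_right ht.2 hbL
          linarith
        rw [Set.mem_iUnion₂]
        refine ⟨⌊t * (b : ℝ) ^ L⌋₊, ?_, ?_⟩
        · rw [hbaddef, Finset.mem_filter, Finset.mem_range]
          exact ⟨hlt, h'⟩
        · rw [Set.mem_Ico, div_le_iff₀ hbL, lt_div_iff₀ hbL]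
          exact ⟨Nat.floor_le hpos, Nat.lt_floor_add_one _⟩
      · left
        exact ⟨ht.1, ht.2, not_lt.1 h'⟩
    have h2 : volume (⋃ γ ∈ bad, Set.Ico ((γ : ℝ) / (b : ℝ) ^ L) (((γ : ℝ) + 1) / (b : ℝ) ^ L)) ≤
        ENNReal.ofReal (1 / 2) := by
      refine (measure_biUnion_finset_le _ _).trans ?_
      have h3 : ∀ γ ∈ bad, volume (Set.Ico ((γ : ℝ) / (b : ℝ) ^ L)
          (((γ : ℝ) + 1) / (b : ℝ) ^ L)) = ENNReal.ofReal (1 / (b : ℝ) ^ L) := by
        intro γ _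
        rw [Real.volume_Ico]
        congr 1
        ring
      rw [Finset.sum_congr rfl h3, ← ENNReal.ofReal_sum_of_nonneg (fun _ _ => by positivity)]
      apply ENNReal.ofReal_le_ofReal
      rw [Finset.sum_const, nsmul_eq_mul, mul_one_div, div_le_iff₀ hbL]
      linarith
    have h3 : volume (Set.Ico (0 : ℝ) 1) ≤ volume T + ENNReal.ofReal (1 / 2) :=
      (measure_mono h1).trans ((measure_union_le _ _).trans (add_le_add_right h2 _))
    rw [Real.volume_Ico] at h3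
    have h4 : ENNReal.ofReal (1 - 0) = ENNReal.ofReal (1 / 2) + ENNReal.ofReal (1 / 2) := by
      rw [← ENNReal.ofReal_add (by norm_num) (by norm_num)]; norm_num
    rw [h4] at h3
    exact (ENNReal.add_le_add_iff_right ENNReal.ofReal_ne_top).1 h3
  set ρ : ℝ := (b : ℝ)⁻¹ ^ L with hρ
  have hρ0 : 0 < ρ := by positivity
  have hρ1 : ρ ≤ 1 := by
    refine pow_le_one₀ (by positivity) ?_
    rw [inv_le_one₀ hb0]
    exact_mod_cast (by omega : 1 ≤ b)
  have hρB : ρ = ((b : ℝ) ^ L)⁻¹ := by rw [hρ, inv_pow]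
  set X : ℝ := Real.exp (((m : ℝ) - ε) * L * Real.log b) / 3 ^ m with hX
  have hX0 : 0 ≤ X := by positivity
  have key := hvol E T ρ X hρ0 hρ1 hX0 hTI hTv ?_
  · refine le_trans (le_of_eq ?_) key
    congr 1
    have e1 : ρ = Real.exp (-(L * Real.log b)) := by
      rw [Real.exp_neg, mul_comm, Real.exp_mul, Real.exp_log hb0, Real.rpow_natCast, hρB]
    have e2 : ρ ^ ε = Real.exp (((m : ℝ) - ε) * L * Real.log b) * ρ ^ m := by
      rw [e1, ← Real.exp_nat_mul, ← Real.exp_add, ← Real.exp_mul]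
      congr 1
      ring
    rw [e2, hX]
    ring
  · intro t ht
    have hpos : 0 ≤ t * (b : ℝ) ^ L := mul_nonneg ht.1 hbL.le
    set γ := ⌊t * (b : ℝ) ^ L⌋₊ with hγ
    have hγ1 : (γ : ℝ) ≤ t * (b : ℝ) ^ L := Nat.floor_le hpos
    have hγ2 : t * (b : ℝ) ^ L < γ + 1 := Nat.lt_floor_add_one _
    set V : (Fin m → ℤ) → Fin m → ℤ := fun x r =>
      ⌊(b : ℝ) ^ L * a (fun c' => (x c' : ℝ) / (b : ℝ) ^ L) r + t * x r⌋ with hV
    set y : (Fin m → ℤ) → Fin m → ℝ := fun x c =>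
      a (fun c' => (x c' : ℝ) / (b : ℝ) ^ L) c + t * ((x c : ℝ) / (b : ℝ) ^ L) with hy
    have hyfl : ∀ x, fl (fun c => (y x c - (0 : Fin m → ℝ) c) / ρ) = V x := by
      intro x
      funext r
      show ⌊(y x r - (0 : Fin m → ℝ) r) / ρ⌋ = _
      congr 1
      rw [hy, hρB]
      simp only [Pi.zero_apply, sub_zero, div_inv_eq_mul]
      field_simp
    set S := gr m (b ^ L) with hS
    set Z : Finset (Fin m → ℤ) := S.image V with hZ
    have hcubeS : ∀ x ∈ S, (fun c' => (x c' : ℝ) / (b : ℝ) ^ L) ∈ cube m := by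
      intro x hx c
      have h1 := (mk_mem x).1 hx c
      have h2 : (0 : ℝ) ≤ x c := by exact_mod_cast h1.1
      have h3 : (x c : ℝ) < (b : ℝ) ^ L := by exact_mod_cast h1.2
      exact ⟨div_nonneg h2 hbL.le, (div_lt_one hbL).2 h3⟩
    have hg : ∀ z : Fin m → ℤ, ∃ x : Fin m → ℤ, z ∈ Z → x ∈ S ∧ V x = z := by
      intro z
      by_cases hz : z ∈ Z
      · obtain ⟨u, hu1, hu⟩ := Finset.mem_image.1 hz
        exact ⟨u, fun _ => ⟨hu1, hu⟩⟩
      · exact ⟨0, fun h => absurd h hz⟩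
    choose g hg using hg
    refine ⟨Z.image (fun z => y (g z)), 0, ?_, ?_, ?_⟩
    · intro y' hy'
      obtain ⟨z, hz, rfl⟩ := Finset.mem_image.1 hy'
      exact hE _ (hcubeS _ (hg z hz).1) t ht.1 ht.2.1.le
    · intro y1 h1 y2 h2 heq
      obtain ⟨z1, hz1, rfl⟩ := Finset.mem_image.1 h1
      obtain ⟨z2, hz2, rfl⟩ := Finset.mem_image.1 h2
      rw [hyfl, hyfl, (hg z1 hz1).2, (hg z2 hz2).2] at heq
      rw [heq]
    · have hinj : Set.InjOn (fun z => y (g z)) (Z : Set (Fin m → ℤ)) := by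
        intro z1 hz1 z2 hz2 heq
        have h1 : y (g z1) = y (g z2) := heq
        have h2 := hyfl (g z1)
        rw [h1, hyfl (g z2), (hg z1 hz1).2, (hg z2 hz2).2] at h2
        exact h2.symm
      rw [Finset.card_image_of_injOn hinj]
      have hcount := mk_count S (mkW m b L a γ) V (fun x hx r =>
        mk_fl a hb γ x hx t hγ1 hγ2 r)
      have hent : (mkS m b L a).h b γ L ≤ Real.log ((S.image (mkW m b L a γ)).card : ℝ) := by
        unfold Sy.h
        apply ent_card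
        intro x hx
        rw [mk_cl a hb γ x]
        exact Finset.mem_image_of_mem _ hx
      have h0S : (0 : Fin m → ℤ) ∈ S := by
        rw [hS, mk_mem]
        intro c
        have hbz : (0 : ℤ) < b := by
          have : 0 < b := by omega
          exact_mod_cast this
        exact ⟨le_rfl, by positivity⟩
      have hW0 : (0 : ℝ) < ((S.image (mkW m b L a γ)).card : ℝ) := by
        have : 0 < (S.image (mkW m b L a γ)).card :=
          Finset.card_pos.2 ⟨_, Finset.mem_image_of_mem _ h0S⟩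
        exact_mod_cast this
      have h1 : Real.exp (((m : ℝ) - ε) * L * Real.log b) ≤
          ((S.image (mkW m b L a γ)).card : ℝ) := by
        rw [← Real.le_log_iff_exp_le hW0]
        exact ht.2.2.trans hent
      have h2 : ((S.image (mkW m b L a γ)).card : ℝ) ≤ 3 ^ m * (Z.card : ℝ) := by
        exact_mod_cast hcount
      rw [hX, div_le_iff₀ (by positivity)]
      linarith

theorem st_MK' (hVOL : ST_VOL) : ST_MK := by
  intro m b R ε hm hb hR hε hEQ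
  obtain ⟨N0, c, hc, hsc⟩ := mk_scale hVOL (R := R) hEQ hb hR (half_pos hε)
  have hb0 : (0 : ℝ) < b := by
    have : 0 < b := by omega
    exact_mod_cast this
  have hBi1 : (b : ℝ)⁻¹ < 1 := by
    rw [inv_lt_one₀ hb0]
    exact_mod_cast (by omega : 1 < b)
  refine ⟨c * ((b : ℝ)⁻¹ ^ (N0 + 1)) ^ (ε / 2), by positivity, ?_⟩
  intro a E hst hE δ hδ0 hδ1
  obtain ⟨n, hn1, hn2⟩ := exists_nat_pow_near_of_lt_one hδ0 hδ1.le (by positivity) hBi1
  have h1 := hsc (N0 + (n + 1)) (by omega) a E hst hE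
  have h2 : (b : ℝ)⁻¹ ^ (N0 + (n + 1)) ≤ δ := by
    rw [pow_add]
    have h3 : (b : ℝ)⁻¹ ^ N0 ≤ 1 := pow_le_one₀ (by positivity) hBi1.le
    calc (b : ℝ)⁻¹ ^ N0 * (b : ℝ)⁻¹ ^ (n + 1) ≤ 1 * (b : ℝ)⁻¹ ^ (n + 1) := by gcongr
      _ = (b : ℝ)⁻¹ ^ (n + 1) := one_mul _
      _ ≤ δ := hn1.le
  refine le_trans (ENNReal.ofReal_le_ofReal ?_) (h1.trans (measure_mono
    (Metric.thickening_mono h2 E)))
  rw [mul_assoc]
  refine mul_le_mul_of_nonneg_left ?_ hc.le
  have h3 : (b : ℝ)⁻¹ ^ (N0 + 1) * δ ≤ (b : ℝ)⁻¹ ^ (N0 + (n + 1)) := by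
    have e : (b : ℝ)⁻¹ ^ (N0 + (n + 1)) = (b : ℝ)⁻¹ ^ (N0 + 1) * (b : ℝ)⁻¹ ^ n := by
      rw [← pow_add]; congr 1; ring
    rw [e]
    gcongr
  have h4 : δ ^ ε ≤ δ ^ (ε / 2) :=
    Real.rpow_le_rpow_of_exponent_ge hδ0 hδ1.le (by linarith)
  calc ((b : ℝ)⁻¹ ^ (N0 + 1)) ^ (ε / 2) * δ ^ ε
      ≤ ((b : ℝ)⁻¹ ^ (N0 + 1)) ^ (ε / 2) * δ ^ (ε / 2) := by gcongr
    _ = ((b : ℝ)⁻¹ ^ (N0 + 1) * δ) ^ (ε / 2) := by
        rw [Real.mul_rpow (by positivity) hδ0.le]
    _ ≤ ((b : ℝ)⁻¹ ^ (N0 + (n + 1))) ^ (ε / 2) := by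
        refine Real.rpow_le_rpow (by positivity) h3 (by positivity)

theorem st_MK : ST_MK := st_MK' st_VOL

end Pool.Agent.Helper70.SK
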