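import Pool.Agent.Helper70.SK.Stmts2
import Pool.Agent.Helper83.SK.MK

set_option autoImplicit false

/-! MKR: one scale, Minkowski dimension with a set of positive measure of slopes and heights. -/

namespace Pool.Agent.Helper70.SK

open Finset MeasureTheory Pool.Agent.Helper70.DK

/-- distance of two points with different heights -/
theorem mkr_dist {m : ℕ} (y y' : Fin m → ℝ) (t t' r : ℝ) (hr : 0 < r)
    (h : ∀ c, |y' c - y c| < r) (ht : |t' - t| < r) :
    dist (pt y' t' : EuclideanSpace ℝ (Fin (m + 1))) (pt y t) < (m + 1) * r := by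
  rw [EuclideanSpace.dist_eq]
  have h0 : 0 < (m + 1 : ℝ) * r := by positivity
  rw [Real.sqrt_lt' h0, Fin.sum_univ_castSucc]
  have h1 : dist ((pt y' t' : EuclideanSpace ℝ (Fin (m + 1))).ofLp (Fin.last m))
      ((pt y t : EuclideanSpace ℝ (Fin (m + 1))).ofLp (Fin.last m)) = |t' - t| := by
    simp [pt, Real.dist_eq]
  rw [h1]
  have h2 : ∀ c : Fin m, dist ((pt y' t' : EuclideanSpace ℝ (Fin (m + 1))).ofLp c.castSucc)
      ((pt y t : EuclideanSpace ℝ (Fin (m + 1))).ofLp c.castSucc) ^ 2 ≤ r ^ 2 := by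
    intro c
    have h3 : dist ((pt y' t' : EuclideanSpace ℝ (Fin (m + 1))).ofLp c.castSucc)
      ((pt y t : EuclideanSpace ℝ (Fin (m + 1))).ofLp c.castSucc) = |y' c - y c| := by
      simp [pt, Real.dist_eq]
    rw [h3]
    exact pow_le_pow_left₀ (abs_nonneg _) (h c).le 2
  have h4 := Finset.sum_le_sum (s := Finset.univ) (fun c (_ : c ∈ Finset.univ) => h2 c)
  rw [Finset.sum_const, Finset.card_univ, Fintype.card_fin, nsmul_eq_mul] at h4
  have h6 : |t' - t| ^ 2 < r ^ 2 := pow_lt_pow_left₀ ht (abs_nonneg _) (by norm_num)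
  have h5 : (m : ℝ) * r ^ 2 + r ^ 2 ≤ ((m + 1) * r) ^ 2 := by
    have hm : (0 : ℝ) ≤ m := Nat.cast_nonneg m
    have hr2 : 0 < r ^ 2 := by positivity
    nlinarith
  linarith

/-- the box that contains all the cells -/
theorem mkr_box {m b L : ℕ} {R : ℝ} {a : (Fin m → ℝ) → Fin m → ℝ} (hb : 2 ≤ b) (hR : 0 ≤ R)
    (hst : Sticky a b R) (γ : ℕ) (hγ : γ < b ^ L) :
    ∃ F : Finset (Fin m → ℤ), (∀ x ∈ gr m (b ^ L), mkW m b L a γ x ∈ F) ∧
      Real.log F.card ≤ m * L * Real.log b + m * Real.log (4 * R + 6) := by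
  have hb0 : (0 : ℝ) < b := by
    have : 0 < b := by omega
    exact_mod_cast this
  have hb1 : (1 : ℝ) ≤ b := by
    have : 1 ≤ b := by omega
    exact_mod_cast this
  have hbz : (0 : ℤ) < b := by
    have : 0 < b := by omega
    exact_mod_cast this
  have hok := mk_ok (L := L) hb hst
  have h0 : (0 : Fin m → ℤ) ∈ gr m (b ^ L) := by
    rw [mk_mem]; intro c; exact ⟨le_rfl, by positivity⟩
  -- the radius
  obtain ⟨K, hK1, hK2⟩ : ∃ K : ℕ, (2 * R + 1) * (b : ℝ) ^ L ≤ K ∧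
      (K : ℝ) ≤ (2 * R + 1) * (b : ℝ) ^ L + 1 := by
    refine ⟨⌈(2 * R + 1) * (b : ℝ) ^ L⌉₊, Nat.le_ceil _, (Nat.ceil_lt_add_one (by positivity)).le⟩
  refine ⟨Fintype.piFinset (fun r : Fin m =>
    Finset.Ico (mkW m b L a γ 0 r - (K : ℤ)) (mkW m b L a γ 0 r + K + b ^ L)), ?_, ?_⟩
  · intro x hx
    have hx' : x ∈ gr m (b ^ L) := hx
    rw [Fintype.mem_piFinset]
    intro r
    have htr : (mkS m b L a).tr b 0 x = (mkS m b L a).tr b 0 0 := by
      funext c
      show x c / (b : ℤ) ^ (L - 0) = 0 / (b : ℤ) ^ (L - 0)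
      have := (mk_mem x).1 hx' c
      rw [Nat.sub_zero, Int.ediv_eq_zero_of_lt this.1 this.2, Int.zero_ediv]
    have hs := hok.st 0 (Nat.zero_le _) x hx' 0 h0 htr r
    have hs' : |((⌊(b : ℝ) ^ L * a (fun c' => (x c' : ℝ) / (b : ℝ) ^ L) r⌋ : ℤ) : ℝ) -
        ((⌊(b : ℝ) ^ L * a (fun c' => (((0 : Fin m → ℤ) c' : ℤ) : ℝ) / (b : ℝ) ^ L) r⌋ : ℤ) : ℝ)|
        ≤ (2 * R + 1) * (b : ℝ) ^ (L - 0) := hs
    rw [Nat.sub_zero] at hs'
    have hs2 := hs'.trans hK1
    have hs3 : |⌊(b : ℝ) ^ L * a (fun c' => (x c' : ℝ) / (b : ℝ) ^ L) r⌋ -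
        ⌊(b : ℝ) ^ L * a (fun c' => (((0 : Fin m → ℤ) c' : ℤ) : ℝ) / (b : ℝ) ^ L) r⌋| ≤
        (K : ℤ) := by exact_mod_cast hs2
    rw [abs_le] at hs3
    have hxr := (mk_mem x).1 hx' r
    have hd0 : 0 ≤ (γ : ℤ) * x r / (b : ℤ) ^ L :=
      Int.ediv_nonneg (mul_nonneg (Int.natCast_nonneg _) hxr.1) (by positivity)
    have hd1 : (γ : ℤ) * x r / (b : ℤ) ^ L < (b : ℤ) ^ L := by
      rw [Int.ediv_lt_iff_lt_mul (by positivity)]
      have hγ' : (γ : ℤ) < (b : ℤ) ^ L := by exact_mod_cast hγ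
      exact mul_lt_mul'' hγ' hxr.2 (Int.natCast_nonneg _) hxr.1
    rw [Finset.mem_Ico]
    unfold mkW
    have hz : (γ : ℤ) * (0 : Fin m → ℤ) r / (b : ℤ) ^ L = 0 := by
      simp
    rw [hz]
    constructor <;> linarith [hs3.1, hs3.2]
  · have hcard : (((Fintype.piFinset (fun r : Fin m =>
        Finset.Ico (mkW m b L a γ 0 r - (K : ℤ)) (mkW m b L a γ 0 r + K + b ^ L))).card : ℕ) : ℝ) =
        (2 * K + (b : ℝ) ^ L) ^ m := by
      rw [Fintype.card_piFinset]
      have h1 : ∀ r : Fin m, (Finset.Ico (mkW m b L a γ 0 r - (K : ℤ))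
          (mkW m b L a γ 0 r + K + b ^ L)).card = 2 * K + b ^ L := by
        intro r
        rw [Int.card_Ico]
        have : mkW m b L a γ 0 r + K + (b : ℤ) ^ L - (mkW m b L a γ 0 r - K) =
          ((2 * K + b ^ L : ℕ) : ℤ) := by push_cast; ring
        rw [this, Int.toNat_natCast]
      rw [Finset.prod_congr rfl (fun r _ => h1 r), Finset.prod_const, Finset.card_univ,
        Fintype.card_fin]
      push_cast
      ring
    rw [hcard]
    have hL1 : (1 : ℝ) ≤ (b : ℝ) ^ L := one_le_pow₀ hb1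
    have h2 : (2 * K + (b : ℝ) ^ L) ≤ (4 * R + 6) * (b : ℝ) ^ L := by nlinarith
    have h3 : (0 : ℝ) < 2 * K + (b : ℝ) ^ L := by positivity
    rw [Real.log_pow]
    have h4 := Real.log_le_log h3 h2
    rw [Real.log_mul (by positivity) (by positivity), Real.log_pow] at h4
    have h5 := mul_le_mul_of_nonneg_left h4 (Nat.cast_nonneg m : (0 : ℝ) ≤ m)
    refine h5.trans (le_of_eq ?_)
    ring

/-- few bad heights -/
theorem mkr_bad {m b : ℕ} {R ε κ : ℝ} (hEQ : EQ m m) (hb : 2 ≤ b) (hR : 0 ≤ R) (hε : 0 < ε)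
    (hκ : 0 < κ) :
    ∃ L0 : ℕ, ∀ L, L0 ≤ L → ∀ a : (Fin m → ℝ) → Fin m → ℝ, Sticky a b R →
      (((Finset.range (b ^ L)).filter (fun γ => (mkS m b L a).h b γ L <
        ((m : ℝ) - ε) * L * Real.log b)).card : ℝ) ≤ κ * (b : ℝ) ^ L := by
  obtain ⟨n0, hn0⟩ := hEQ b (2 * R + 1) 1 1 4 (ε * κ / 2) hb (by linarith) one_pos zero_le_one
    (by norm_num) (by positivity)
  have hlb : 0 < Real.log b := Real.log_pos (by exact_mod_cast hb)
  set c1 : ℝ := m * Real.log (4 * R + 6) with hc1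
  have hc10 : 0 ≤ c1 := mul_nonneg (Nat.cast_nonneg _) (Real.log_nonneg (by linarith))
  refine ⟨max (n0 + 1) (⌈c1 / (ε * κ / 2 * Real.log b)⌉₊), ?_⟩
  intro L hL a hst
  have hL1 : n0 + 1 ≤ L := (le_max_left _ _).trans hL
  have hL2 : c1 ≤ ε * κ / 2 * Real.log b * L := by
    have h1 : c1 / (ε * κ / 2 * Real.log b) ≤ L :=
      (Nat.le_ceil _).trans (by exact_mod_cast (le_max_right _ _).trans hL)
    rw [div_le_iff₀ (by positivity)] at h1
    linarith
  have hb0 : (0 : ℝ) < b := by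
    have : 0 < b := by omega
    exact_mod_cast this
  have hLr : (0 : ℝ) < L := by exact_mod_cast (by omega : 0 < L)
  have hmain := hn0 (mkS m b L a) (mk_ok hb hst) L (by omega) le_rfl
  have hG : ((mkS m b L a).G.card : ℝ) = (b : ℝ) ^ L := by
    show ((Finset.range (b ^ L)).card : ℝ) = _
    rw [Finset.card_range]; push_cast; ring
  rw [hG] at hmain
  set bad := (Finset.range (b ^ L)).filter (fun γ => (mkS m b L a).h b γ L <
        ((m : ℝ) - ε) * L * Real.log b) with hbad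
  have hsum : ∑ γ ∈ (mkS m b L a).G, (mkS m b L a).h b γ L ≤
      ∑ γ ∈ Finset.range (b ^ L), ((m * L * Real.log b + c1) -
        (if (mkS m b L a).h b γ L < ((m : ℝ) - ε) * L * Real.log b then ε * L * Real.log b
          else 0)) := by
    apply Finset.sum_le_sum
    intro γ hγ
    have hγ' : γ < b ^ L := Finset.mem_range.1 hγ
    split_ifs with hlt
    · have : ((m : ℝ) - ε) * L * Real.log b = m * L * Real.log b - ε * L * Real.log b := by ring
      linarith
    · have := mk_up (a := a) hb hR hst γ hγ'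
      linarith
  rw [Finset.sum_sub_distrib, Finset.sum_const, Finset.card_range, ← Finset.sum_filter,
    Finset.sum_const, ← hbad, nsmul_eq_mul, nsmul_eq_mul] at hsum
  push_cast at hsum
  have hbL : (0 : ℝ) < (b : ℝ) ^ L := by positivity
  have hLL : 0 < (L : ℝ) * Real.log b := by positivity
  have h1 : (bad.card : ℝ) * (ε * L * Real.log b) ≤
      (b : ℝ) ^ L * (c1 + ε * κ / 2 * L * Real.log b) := by
    have e1 : ((m : ℝ) - ε * κ / 2) * L * Real.log b * (b : ℝ) ^ L =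
      (b : ℝ) ^ L * (m * L * Real.log b) - (b : ℝ) ^ L * (ε * κ / 2 * L * Real.log b) := by ring
    have e2 : (b : ℝ) ^ L * (m * L * Real.log b + c1) =
      (b : ℝ) ^ L * (m * L * Real.log b) + (b : ℝ) ^ L * c1 := by ring
    have e3 : (b : ℝ) ^ L * (c1 + ε * κ / 2 * L * Real.log b) = (b : ℝ) ^ L * c1 +
      (b : ℝ) ^ L * (ε * κ / 2 * L * Real.log b) := by ring
    linarith [hmain.trans hsum]
  have h2 : (b : ℝ) ^ L * (c1 + ε * κ / 2 * L * Real.log b) ≤
      κ * (b : ℝ) ^ L * (ε * L * Real.log b) := by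
    have h3 : c1 + ε * κ / 2 * L * Real.log b ≤ κ * (ε * L * Real.log b) := by linarith
    have := mul_le_mul_of_nonneg_left h3 hbL.le
    linarith
  exact le_of_mul_le_mul_right (h1.trans h2) (by positivity)

/-- the union of the slabs of a set of heights -/
theorem mkr_slabs (N : ℝ) (hN : 0 < N) (G : Finset ℕ) (μ : ℝ) (hμ : μ * N ≤ G.card) :
    ENNReal.ofReal μ ≤ volume (⋃ γ ∈ G, Set.Ico ((γ : ℝ) / N) (((γ : ℝ) + 1) / N)) := by
  rw [measure_biUnion_finset]
  · have h3 : ∀ γ ∈ G, volume (Set.Ico ((γ : ℝ) / N) (((γ : ℝ) + 1) / N)) =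
        ENNReal.ofReal (1 / N) := by
      intro γ _
      rw [Real.volume_Ico]
      congr 1
      ring
    rw [Finset.sum_congr rfl h3, ← ENNReal.ofReal_sum_of_nonneg (fun _ _ => by positivity)]
    apply ENNReal.ofReal_le_ofReal
    rw [Finset.sum_const, nsmul_eq_mul, mul_one_div, le_div_iff₀ hN]
    exact hμ
  · intro γ _ γ' _ hne
    rw [Function.onFun, Set.disjoint_left]
    intro t ht ht'
    rw [Set.mem_Ico, div_le_iff₀ hN, lt_div_iff₀ hN] at ht ht'
    apply hne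
    have h1 : γ < γ' + 1 := by
      have : (γ : ℝ) < γ' + 1 := by linarith [ht.1, ht'.2]
      exact_mod_cast this
    have h2 : γ' < γ + 1 := by
      have : (γ' : ℝ) < γ + 1 := by linarith [ht'.1, ht.2]
      exact_mod_cast this
    omega
  · intro γ _
    exact measurableSet_Ico

/-- the points of the grid are close to the points of the set -/
theorem mkr_near {m b L : ℕ} {R : ℝ} {a : (Fin m → ℝ) → Fin m → ℝ} (hb : 2 ≤ b) (hR : 0 ≤ R)
    (hst : Sticky a b R) (S : Set ((Fin m → ℝ) × ℝ)) (hS : S ⊆ cube m ×ˢ Set.Icc 0 1)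
    (E : Set (EuclideanSpace ℝ (Fin (m + 1))))
    (hE : ∀ p ∈ S, pt (fun c => a p.1 c + p.2 * p.1 c) p.2 ∈ E) (γ : ℕ) (x : Fin m → ℤ)
    (hx : x ∈ cellsOf m b L S γ) (t : ℝ) (ht1 : t ≤ 1) (h1 : (γ : ℝ) ≤ t * (b : ℝ) ^ L)
    (h2 : t * (b : ℝ) ^ L < γ + 1) :
    pt (fun c => a (fun c' => (x c' : ℝ) / (b : ℝ) ^ L) c + t * ((x c : ℝ) / (b : ℝ) ^ L)) t ∈
      Metric.thickening ((m + 1) * (R + 3) * (b : ℝ)⁻¹ ^ L) E := by
  classical
  have hb0 : (0 : ℝ) < b := by
    have : 0 < b := by omega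
    exact_mod_cast this
  have hN : (0 : ℝ) < (b : ℝ) ^ L := by positivity
  unfold cellsOf at hx
  rw [Finset.mem_filter] at hx
  obtain ⟨hxg, p, hp, hp1, hp2⟩ := hx
  have hxg' := (mk_mem x).1 hxg
  have hpS := hS hp
  have hpc : ∀ c, 0 ≤ p.1 c ∧ p.1 c < 1 := hpS.1
  have hpt : 0 ≤ p.2 ∧ p.2 ≤ 1 := hpS.2
  have hρB : (b : ℝ)⁻¹ ^ L = ((b : ℝ) ^ L)⁻¹ := by rw [inv_pow]
  rw [hρB]
  set N : ℝ := (b : ℝ) ^ L with hNdef
  have ht0 : 0 ≤ t := by
    by_contra hneg
    push Not at hneg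
    have : t * N < 0 := mul_neg_of_neg_of_pos hneg hN
    have : (0 : ℝ) ≤ γ := Nat.cast_nonneg _
    linarith
  rw [Metric.mem_thickening_iff]
  refine ⟨_, hE p hp, ?_⟩
  -- the cell of `p.1`
  have hfl : ∀ c, (x c : ℝ) ≤ N * p.1 c ∧ N * p.1 c < x c + 1 := by
    intro c
    have := hp1 c
    rw [Int.floor_eq_iff] at this
    exact this
  have hflt : (γ : ℝ) ≤ N * p.2 ∧ N * p.2 < γ + 1 := by
    have := hp2
    rw [Int.floor_eq_iff] at this
    push_cast at this
    exact this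
  -- stickiness
  have hstick : ∀ c, N * |a p.1 c - a (fun c' => (x c' : ℝ) / N) c| ≤ R := by
    intro c
    have hi : x ∈ grid m (b ^ L) := by
      intro c'
      have := hxg' c'
      push_cast
      exact this
    have hy : (fun c' => N * p.1 c' - x c') ∈ cube m := by
      intro c'
      have := hfl c'
      constructor <;> linarith [this.1, this.2]
    have h := hst L x hi _ hy c
    unfold pat at h
    rw [if_pos hy, abs_mul, abs_of_pos hN] at h
    have e : (fun c' => (N * p.1 c' - x c' + x c') / (b : ℝ) ^ L) = p.1 := by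
      funext c'
      rw [sub_add_cancel, ← hNdef]
      field_simp
    rw [e] at h
    exact h
  have hdt : |t * N - N * p.2| < 1 := by
    rw [abs_lt]
    constructor <;> linarith [hflt.1, hflt.2]
  have hr : 0 < (R + 3) * N⁻¹ := by positivity
  have hred : (m + 1 : ℝ) * (R + 3) * N⁻¹ = (m + 1) * ((R + 3) * N⁻¹) := by ring
  rw [hred]
  apply mkr_dist _ _ _ _ _ hr
  · intro c
    show |a (fun c' => (x c' : ℝ) / N) c + t * ((x c : ℝ) / N) - (a p.1 c + p.2 * p.1 c)| <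
      (R + 3) * N⁻¹
    rw [← div_eq_mul_inv, lt_div_iff₀ hN, ← abs_of_pos hN, ← abs_mul, abs_of_pos hN]
    have e : (a (fun c' => (x c' : ℝ) / N) c + t * ((x c : ℝ) / N) - (a p.1 c + p.2 * p.1 c)) * N =
        -(N * (a p.1 c - a (fun c' => (x c' : ℝ) / N) c)) + (t * (x c - N * p.1 c) +
          (t * N - N * p.2) * p.1 c) := by
      field_simp
      ring
    rw [e]
    have h3 : |-(N * (a p.1 c - a (fun c' => (x c' : ℝ) / N) c))| ≤ R := by
      rw [abs_neg, abs_mul, abs_of_pos hN]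
      exact hstick c
    have h4 : |t * (x c - N * p.1 c)| ≤ 1 := by
      rw [abs_mul, abs_of_nonneg ht0]
      have : |(x c : ℝ) - N * p.1 c| ≤ 1 := by
        rw [abs_le]
        constructor <;> linarith [(hfl c).1, (hfl c).2]
      exact mul_le_one₀ ht1 (abs_nonneg _) this
    have h5 : |(t * N - N * p.2) * p.1 c| ≤ 1 := by
      rw [abs_mul]
      exact mul_le_one₀ hdt.le (abs_nonneg _) (by
        rw [abs_of_nonneg (hpc c).1]; exact (hpc c).2.le)
    refine lt_of_le_of_lt (abs_add_le _ _) ?_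
    have h6 := abs_add_le (t * (x c - N * p.1 c)) ((t * N - N * p.2) * p.1 c)
    linarith
  · rw [← div_eq_mul_inv, lt_div_iff₀ hN, ← abs_of_pos hN, ← abs_mul]
    have e : (t - p.2) * N = t * N - N * p.2 := by ring
    rw [e]
    linarith

/-- many points on a good slice -/
theorem mkr_slice (hENTP : ST_ENTP) {m b L : ℕ} {R lam ε : ℝ} {a : (Fin m → ℝ) → Fin m → ℝ}
    (hb : 2 ≤ b) (hR : 0 ≤ R) (hlam : 0 < lam)
    (hst : Sticky a b R) (S : Set ((Fin m → ℝ) × ℝ)) (hS : S ⊆ cube m ×ˢ Set.Icc 0 1)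
    (E : Set (EuclideanSpace ℝ (Fin (m + 1))))
    (hE : ∀ p ∈ S, pt (fun c => a p.1 c + p.2 * p.1 c) p.2 ∈ E) (γ : ℕ) (hγ : γ < b ^ L)
    (hgood : ((m : ℝ) - ε * lam / 2) * L * Real.log b ≤ (mkS m b L a).h b γ L)
    (hcells : lam / 2 * (b : ℝ) ^ (L * m) ≤ ((cellsOf m b L S γ).card : ℝ))
    (t : ℝ) (h1 : (γ : ℝ) ≤ t * (b : ℝ) ^ L) (h2 : t * (b : ℝ) ^ L < γ + 1) :
    ∃ (F : Finset (Fin m → ℝ)) (x0 : Fin m → ℝ),
      (∀ y ∈ F, pt y t ∈ Metric.thickening ((m + 1) * (R + 3) * (b : ℝ)⁻¹ ^ L) E) ∧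
      (∀ y ∈ F, ∀ y' ∈ F, fl (fun c => (y c - x0 c) / (b : ℝ)⁻¹ ^ L) =
        fl (fun c => (y' c - x0 c) / (b : ℝ)⁻¹ ^ L) → y = y') ∧
      Real.exp (((m : ℝ) - ε) * L * Real.log b -
        (m * Real.log (4 * R + 6) + Real.log 2) / (lam / 2)) / 3 ^ m ≤ F.card := by
  classical
  have hb0 : (0 : ℝ) < b := by
    have : 0 < b := by omega
    exact_mod_cast this
  have hbL : (0 : ℝ) < (b : ℝ) ^ L := by positivity
  have hbz : (0 : ℤ) < b := by
    have : 0 < b := by omega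
    exact_mod_cast this
  set ρ : ℝ := (b : ℝ)⁻¹ ^ L with hρ
  have hρB : ρ = ((b : ℝ) ^ L)⁻¹ := by rw [hρ, inv_pow]
  set c1 : ℝ := m * Real.log (4 * R + 6) with hc1
  have hc10 : 0 ≤ c1 := mul_nonneg (Nat.cast_nonneg _) (Real.log_nonneg (by linarith))
  have ht1 : t ≤ 1 := by
    have h3 : (γ : ℝ) + 1 ≤ (b : ℝ) ^ L := by exact_mod_cast (by omega : γ + 1 ≤ b ^ L)
    have h4 : t * (b : ℝ) ^ L ≤ 1 * (b : ℝ) ^ L := by linarith
    exact le_of_mul_le_mul_right h4 hbL
  set V : (Fin m → ℤ) → Fin m → ℤ := fun x r =>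
    ⌊(b : ℝ) ^ L * a (fun c' => (x c' : ℝ) / (b : ℝ) ^ L) r + t * x r⌋ with hV
  set y : (Fin m → ℤ) → Fin m → ℝ := fun x c =>
    a (fun c' => (x c' : ℝ) / (b : ℝ) ^ L) c + t * ((x c : ℝ) / (b : ℝ) ^ L) with hy
  have hyfl : ∀ x, fl (fun c => (y x c - (0 : Fin m → ℝ) c) / ρ) = V x := by
    intro x
    funext r
    show ⌊(y x r - (0 : Fin m → ℝ) r) / ρ⌋ = _
    congr 1
    rw [hy, hρB]
    simp only [Pi.zero_apply, sub_zero, div_inv_eq_mul]
    field_simp
  set P := cellsOf m b L S γ with hP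
  have hPS : P ⊆ gr m (b ^ L) := by
    rw [hP]
    unfold cellsOf
    exact Finset.filter_subset _ _
  set Z : Finset (Fin m → ℤ) := P.image V with hZ
  have hg : ∀ z : Fin m → ℤ, ∃ x : Fin m → ℤ, z ∈ Z → x ∈ P ∧ V x = z := by
    intro z
    by_cases hz : z ∈ Z
    · obtain ⟨u, hu1, hu⟩ := Finset.mem_image.1 hz
      exact ⟨u, fun _ => ⟨hu1, hu⟩⟩
    · exact ⟨0, fun h => absurd h hz⟩
  choose g hg using hg
  refine ⟨Z.image (fun z => y (g z)), 0, ?_, ?_, ?_⟩
  · intro y' hy'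
    obtain ⟨z, hz, rfl⟩ := Finset.mem_image.1 hy'
    exact mkr_near hb hR hst S hS E hE γ (g z) (hg z hz).1 t ht1 h1 h2
  · intro y1 h1 y2 h2 heq
    obtain ⟨z1, hz1, rfl⟩ := Finset.mem_image.1 h1
    obtain ⟨z2, hz2, rfl⟩ := Finset.mem_image.1 h2
    rw [hyfl, hyfl, (hg z1 hz1).2, (hg z2 hz2).2] at heq
    rw [heq]
  · have hinj : Set.InjOn (fun z => y (g z)) (Z : Set (Fin m → ℤ)) := by
      intro z1 hz1 z2 hz2 heq
      have h1 : y (g z1) = y (g z2) := heq
      have h2 := hyfl (g z1)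
      rw [h1, hyfl (g z2), (hg z1 hz1).2, (hg z2 hz2).2] at h2
      exact h2.symm
    rw [Finset.card_image_of_injOn hinj]
    have hcount := mk_count P (mkW m b L a γ) V (fun x hx r =>
      mk_fl a hb γ x (hPS hx) t h1 h2 r)
    have h0S : (0 : Fin m → ℤ) ∈ gr m (b ^ L) := by
      rw [mk_mem]
      intro c
      exact ⟨le_rfl, by positivity⟩
    have hPpos : 0 < P.card := by
      have : (0 : ℝ) < P.card := lt_of_lt_of_le (by positivity) hcells
      exact_mod_cast this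
    have hcardS : ((gr m (b ^ L)).card : ℝ) = (b : ℝ) ^ (L * m) := by
      unfold gr
      rw [Fintype.card_piFinset]
      simp only [Int.card_Ico, sub_zero, Finset.prod_const, Finset.card_univ, Fintype.card_fin]
      rw [Int.toNat_natCast]
      push_cast
      rw [pow_mul]
    obtain ⟨F, hF1, hF2⟩ := mkr_box hb hR hst γ hγ
    have hent : (mkS m b L a).h b γ L = ent (gr m (b ^ L)) (mkW m b L a γ) := by
      unfold Sy.h
      have e : (fun x => cl b ((mkS m b L a).e L) ((mkS m b L a).Y b γ x)) = mkW m b L a γ := by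
        funext x
        exact mk_cl a hb γ x
      rw [e]
      rfl
    have hmain := hENTP (Fin m → ℤ) (Fin m → ℤ) (gr m (b ^ L)) P (mkW m b L a γ) F
      (m * L * Real.log b + c1) (ε * lam / 2 * L * Real.log b + c1) (lam / 2) ⟨_, h0S⟩ hPS
      (by positivity) (by rw [hcardS]; exact hcells) hF1 hF2 (by
        rw [← hent]
        refine le_trans (le_of_eq ?_) hgood
        ring)
    have himg : @Finset.image _ _ (fun a b => Classical.propDecidable (a = b))
        (mkW m b L a γ) P = P.image (mkW m b L a γ) := by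
      ext z
      simp only [Finset.mem_image]
    rw [himg] at hmain
    have hW0 : (0 : ℝ) < ((P.image (mkW m b L a γ)).card : ℝ) := by
      have : 0 < (P.image (mkW m b L a γ)).card :=
        Finset.card_pos.2 ((Finset.card_pos.1 hPpos).image _)
      exact_mod_cast this
    have h3 : Real.exp (((m : ℝ) - ε) * L * Real.log b - (c1 + Real.log 2) / (lam / 2)) ≤
        ((P.image (mkW m b L a γ)).card : ℝ) := by
      rw [← Real.le_log_iff_exp_le hW0]
      refine le_trans ?_ hmain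
      have e : (ε * lam / 2 * L * Real.log b + c1 + Real.log 2) / (lam / 2) =
          ε * L * Real.log b + (c1 + Real.log 2) / (lam / 2) := by
        field_simp
        ring
      rw [e]
      have e2 : ((m : ℝ) - ε) * L * Real.log b = m * L * Real.log b - ε * L * Real.log b := by ring
      linarith
    have h4 : ((P.image (mkW m b L a γ)).card : ℝ) ≤ 3 ^ m * (Z.card : ℝ) := by
      exact_mod_cast hcount
    rw [div_le_iff₀ (by positivity)]
    linarith

theorem st_MKR (hVOLR : ST_VOLR) (hENTP : ST_ENTP) (hCNT : ST_CNT) : ST_MKR := by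
  classical
  intro m b R lam ε hb hR hlam hε hEQ
  obtain ⟨L0, hL0⟩ := mkr_bad (R := R) hEQ hb hR (by positivity : 0 < ε * lam / 2)
    (by positivity : 0 < lam / 4)
  obtain ⟨c, hc, hvol⟩ := hVOLR m
  set C0 : ℝ := (m * Real.log (4 * R + 6) + Real.log 2) / (lam / 2) with hC0
  refine ⟨L0, c * (lam / 4) * (Real.exp (-C0) / 3 ^ m), (m + 1) * (R + 3) + 1, by positivity,
    by positivity, ?_⟩
  intro L hL a hst S hS hSv E hE
  have hb0 : (0 : ℝ) < b := by
    have : 0 < b := by omega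
    exact_mod_cast this
  have hbL : (0 : ℝ) < (b : ℝ) ^ L := by positivity
  have hbad := hL0 L hL a hst
  have hcnt := hCNT m b L lam S hb hlam.le hS hSv
  set bad := (Finset.range (b ^ L)).filter (fun γ => (mkS m b L a).h b γ L <
        ((m : ℝ) - ε * lam / 2) * L * Real.log b) with hbaddef
  set many := (Finset.range (b ^ L)).filter
      (fun γ => lam / 2 * (b : ℝ) ^ (L * m) ≤ ((cellsOf m b L S γ).card : ℝ)) with hmany
  have hgood : lam / 4 * (b : ℝ) ^ L ≤ ((many \ bad).card : ℝ) := by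
    have h1 : many.card ≤ (many \ bad).card + bad.card := by
      have := Finset.card_le_card (Finset.subset_union_left (s₁ := many) (s₂ := bad))
      rw [← Finset.sdiff_union_self_eq_union] at this
      exact this.trans (Finset.card_union_le _ _)
    have h2 : (many.card : ℝ) ≤ ((many \ bad).card : ℝ) + bad.card := by exact_mod_cast h1
    linarith
  have hT := mkr_slabs ((b : ℝ) ^ L) hbL (many \ bad) (lam / 4) hgood
  set T : Set ℝ := ⋃ γ ∈ many \ bad, Set.Ico ((γ : ℝ) / (b : ℝ) ^ L)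
    (((γ : ℝ) + 1) / (b : ℝ) ^ L) with hTdef
  set ρ : ℝ := (b : ℝ)⁻¹ ^ L with hρ
  have hρ0 : 0 < ρ := by positivity
  have hρ1 : ρ ≤ 1 := by
    refine pow_le_one₀ (by positivity) ?_
    rw [inv_le_one₀ hb0]
    exact_mod_cast (by omega : 1 ≤ b)
  have hρB : ρ = ((b : ℝ) ^ L)⁻¹ := by rw [hρ, inv_pow]
  set X : ℝ := Real.exp (((m : ℝ) - ε) * L * Real.log b - C0) / 3 ^ m with hX
  have hX0 : 0 ≤ X := by positivity
  have key := hvol (Metric.thickening ((m + 1) * (R + 3) * ρ) E) T ρ X (lam / 4) hρ0 hρ1 hX0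
    (by positivity) hT ?_
  · have hsub : Metric.thickening ρ (Metric.thickening ((m + 1) * (R + 3) * ρ) E) ⊆
        Metric.thickening (((m + 1) * (R + 3) + 1) * ρ) E := by
      refine (Metric.thickening_thickening_subset _ _ _).trans ?_
      apply Metric.thickening_mono
      apply le_of_eq
      ring
    refine le_trans (le_of_eq ?_) (key.trans (measure_mono hsub))
    congr 1
    have e1 : ρ = Real.exp (-(L * Real.log b)) := by
      rw [Real.exp_neg, mul_comm, Real.exp_mul, Real.exp_log hb0, Real.rpow_natCast, hρB]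
    have e2 : Real.exp (-C0) * ρ ^ ε = Real.exp (((m : ℝ) - ε) * L * Real.log b - C0) * ρ ^ m := by
      rw [e1, ← Real.exp_nat_mul, ← Real.exp_add, ← Real.exp_mul, ← Real.exp_add]
      congr 1
      ring
    have e3 : c * (lam / 4) * (Real.exp (-C0) / 3 ^ m) * ρ ^ ε =
        c * (lam / 4) * (Real.exp (-C0) * ρ ^ ε) / 3 ^ m := by ring
    rw [e3, e2, hX]
    ring
  · intro t ht
    rw [hTdef, Set.mem_iUnion₂] at ht
    obtain ⟨γ, hγ, ht⟩ := ht
    rw [Set.mem_Ico, div_le_iff₀ hbL, lt_div_iff₀ hbL] at ht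
    rw [Finset.mem_sdiff] at hγ
    have hγ1 := Finset.mem_filter.1 hγ.1
    have hγL : γ < b ^ L := Finset.mem_range.1 hγ1.1
    have hγ2 : ((m : ℝ) - ε * lam / 2) * L * Real.log b ≤ (mkS m b L a).h b γ L := by
      by_contra hneg
      exact hγ.2 (Finset.mem_filter.2 ⟨hγ1.1, not_le.1 hneg⟩)
    exact mkr_slice hENTP hb hR hlam hst S hS E hE γ hγL hγ2 hγ1.2 t ht.1 ht.2

end Pool.Agent.Helper70.SK
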